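import Pool.Agent.H13.EC.Defs
import Pool.Agent.H23.Doubling

/-!
# MP_6b5a9a_nt: points with a large coordinate are not torsion (characteristic two)
-/

open Pool.Agent.H13.EC WeierstrassCurve

set_option linter.unusedSimpArgs false

universe u

namespace Pool.Agent.H85.EC

/-- `x` is large compared with the coefficients of `W`. -/
structure BigC {K : Type*} [Field K] (W : Affine K) {Γ : Type*}
    [LinearOrderedCommGroupWithZero Γ] (v : Valuation K Γ) (x : K) : Prop where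
  one : 1 < v x
  b₂ : v W.b₂ < v x
  b₄ : v W.b₄ < v x
  b₆ : v W.b₆ < v x
  b₈ : v W.b₈ < v x
  a : W.a₁ ≠ 0 → v W.a₃ < v W.a₁ * v x

section

variable {K : Type*} [Field K] {W : Affine K} {Γ : Type*} [LinearOrderedCommGroupWithZero Γ]
  {v : Valuation K Γ}

theorem BigC.mono {x x' : K} (h : BigC W v x) (hx : v x ≤ v x') : BigC W v x' where
  one := h.one.trans_le hx
  b₂ := h.b₂.trans_le hx
  b₄ := h.b₄.trans_le hx
  b₆ := h.b₆.trans_le hx
  b₈ := h.b₈.trans_le hx
  a := fun h1 => (h.a h1).trans_le (mul_le_mul_right hx _)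

theorem v_numC [CharP K 2] {x : K} (h : BigC W v x) :
    v (x ^ 4 - W.b₄ * x ^ 2 - 2 * W.b₆ * x - W.b₈) = v x ^ 4 := by
  have h20 : (2 : K) = 0 := by exact_mod_cast CharP.cast_eq_zero K 2
  have hx1 := h.one
  have hx0 : 0 < v x := zero_lt_one.trans hx1
  have hpow : ∀ k, 1 ≤ v x ^ k := fun k => one_le_pow₀ hx1.le
  have e1 : v (W.b₄ * x ^ 2) < v x ^ 4 := by
    rw [map_mul, map_pow]
    calc v W.b₄ * v x ^ 2 < v x * v x ^ 2 :=
          mul_lt_mul_of_pos_right h.b₄ (pow_pos hx0 2)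
      _ = v x ^ 3 * 1 := by simp only [pow_succ, pow_zero, one_mul, mul_one, mul_assoc, mul_comm, mul_left_comm]
      _ ≤ v x ^ 3 * v x := by gcongr
      _ = v x ^ 4 := by simp only [pow_succ, pow_zero, one_mul, mul_one, mul_assoc, mul_comm, mul_left_comm]
  have e3 : v W.b₈ < v x ^ 4 := by
    calc v W.b₈ < v x := h.b₈
      _ = v x * 1 := by rw [mul_one]
      _ ≤ v x * v x ^ 3 := by gcongr; exact hpow 3
      _ = v x ^ 4 := by simp only [pow_succ, pow_zero, one_mul, mul_one, mul_assoc, mul_comm, mul_left_comm]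
  have e4 : v (x ^ 4) = v x ^ 4 := map_pow _ _ _
  rw [h20, zero_mul, zero_mul, sub_zero]
  have f1 : v (x ^ 4 - W.b₄ * x ^ 2) = v x ^ 4 := by
    rw [← e4]
    exact Valuation.map_sub_eq_of_lt_left v (by rw [e4]; exact e1)
  rw [Valuation.map_sub_eq_of_lt_left v (by rw [f1]; exact e3), f1]

theorem den_eq [CharP K 2] (x : K) :
    4 * x ^ 3 + W.b₂ * x ^ 2 + 2 * W.b₄ * x + W.b₆ = (W.a₁ * x + W.a₃) ^ 2 := by
  have h20 : (2 : K) = 0 := by exact_mod_cast CharP.cast_eq_zero K 2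
  simp only [WeierstrassCurve.b₂, WeierstrassCurve.b₄, WeierstrassCurve.b₆]
  linear_combination (2 * x ^ 3 + 2 * W.a₂ * x ^ 2 + 2 * W.a₄ * x + 2 * W.a₆) * h20

theorem v_denC [CharP K 2] {x : K} (h : BigC W v x) :
    v (4 * x ^ 3 + W.b₂ * x ^ 2 + 2 * W.b₄ * x + W.b₆) < v x ^ 3 := by
  have h20 : (2 : K) = 0 := by exact_mod_cast CharP.cast_eq_zero K 2
  have h40 : (4 : K) = 0 := by linear_combination 2 * h20
  have hx1 := h.one
  have hx0 : 0 < v x := zero_lt_one.trans hx1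
  rw [h20, h40, zero_mul, zero_mul, zero_mul, zero_add, add_zero]
  refine (v.map_add _ _).trans_lt (max_lt ?_ ?_)
  · rw [map_mul, map_pow]
    calc v W.b₂ * v x ^ 2 < v x * v x ^ 2 := mul_lt_mul_of_pos_right h.b₂ (pow_pos hx0 2)
      _ = v x ^ 3 := by simp only [pow_succ, pow_zero, one_mul, mul_one, mul_assoc, mul_comm, mul_left_comm]
  · calc v W.b₆ < v x := h.b₆
      _ = v x * 1 := by rw [mul_one]
      _ ≤ v x * v x ^ 2 := by gcongr; exact one_le_pow₀ hx1.le
      _ = v x ^ 3 := by simp only [pow_succ, pow_zero, one_mul, mul_one, mul_assoc, mul_comm, mul_left_comm]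

theorem den_ne [CharP K 2] (hW : W.a₁ ≠ 0 ∨ W.a₃ ≠ 0) {x : K} (h : BigC W v x) :
    4 * x ^ 3 + W.b₂ * x ^ 2 + 2 * W.b₄ * x + W.b₆ ≠ 0 := by
  rw [den_eq]
  refine pow_ne_zero 2 ?_
  by_cases h1 : W.a₁ = 0
  · rcases hW with hW | hW
    · exact absurd h1 hW
    · rw [h1, zero_mul, zero_add]
      exact hW
  · intro h0
    have h2 : W.a₁ * x = -W.a₃ := eq_neg_of_add_eq_zero_left h0
    have h3 := h.a h1
    rw [← map_mul, h2, Valuation.map_neg] at h3
    exact lt_irrefl _ h3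

variable [DecidableEq K]

theorem dblC [CharP K 2] (hW : W.a₁ ≠ 0 ∨ W.a₃ ≠ 0) {x y : K} (h : W.Nonsingular x y)
    (hb : BigC W v x) :
    ∃ x' y', ∃ h' : W.Nonsingular x' y', Affine.Point.some x y h + Affine.Point.some x y h =
      Affine.Point.some x' y' h' ∧ v x < v x' := by
  have hx0 : v x ≠ 0 := (zero_lt_one.trans hb.one).ne'
  have hden := den_ne hW hb
  have hy : y ≠ W.negY x y := by
    intro hy
    have h1 := Pool.Agent.H23.sq_two_y h.1
    rw [← hy, sub_self, zero_pow two_ne_zero] at h1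
    exact hden h1.symm
  refine ⟨_, _, _, Affine.Point.add_self_of_Y_ne hy, ?_⟩
  have h1 := congrArg v (Pool.Agent.H23.dbl_X h.1 hy)
  rw [map_mul, v_numC hb] at h1
  by_contra hlt
  rw [not_lt] at hlt
  have h2 : v (W.addX x x (W.slope x x y y)) *
      v (4 * x ^ 3 + W.b₂ * x ^ 2 + 2 * W.b₄ * x + W.b₆) < v x * v x ^ 3 :=
    (mul_le_mul_left hlt _).trans_lt
      (mul_lt_mul_of_pos_left (v_denC hb) (zero_lt_iff.2 hx0))
  rw [h1] at h2
  refine lt_irrefl _ (h2.trans_le (le_of_eq ?_))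
  simp only [pow_succ, pow_zero, one_mul, mul_one, mul_assoc, mul_comm, mul_left_comm]

theorem dbl_powC [CharP K 2] (hW : W.a₁ ≠ 0 ∨ W.a₃ ≠ 0) {x y : K} (h : W.Nonsingular x y)
    (hb : BigC W v x) (k : ℕ) :
    ∃ x' y', ∃ h' : W.Nonsingular x' y', (2 ^ k) • Affine.Point.some x y h =
      Affine.Point.some x' y' h' ∧ v x ≤ v x' ∧ (1 ≤ k → v x < v x') := by
  induction k with
  | zero => exact ⟨x, y, h, by simp, le_rfl, fun h => absurd h (by norm_num)⟩
  | succ k ih =>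
    obtain ⟨x', y', h', he, hv, -⟩ := ih
    obtain ⟨x'', y'', h'', he', hv'⟩ := dblC hW h' (hb.mono hv)
    refine ⟨x'', y'', h'', ?_, (hv.trans_lt hv').le, fun _ => hv.trans_lt hv'⟩
    rw [pow_succ, mul_nsmul, he, two_nsmul, he']

/-- A point with a large coordinate is not torsion. -/
theorem not_torsionC [CharP K 2] (hW : W.a₁ ≠ 0 ∨ W.a₃ ≠ 0) {x y : K}
    (h : W.Nonsingular x y) (hb : BigC W v x) (n : ℕ) (hn : n ≠ 0) :
    n • Affine.Point.some x y h ≠ 0 := by
  intro h0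
  have hn' : 0 < n := Nat.pos_of_ne_zero hn
  obtain ⟨i, j, hij, he⟩ := Finite.exists_ne_map_eq_of_infinite
    (fun k : ℕ => (⟨2 ^ k % n, Nat.mod_lt _ hn'⟩ : Fin n))
  simp only [Fin.mk.injEq] at he
  have hmod : ∀ m : ℕ, m • Affine.Point.some x y h = (m % n) • Affine.Point.some x y h := by
    intro m
    conv_lhs => rw [← Nat.mod_add_div m n, add_nsmul, mul_nsmul, h0, nsmul_zero, add_zero]
  have key : ∀ i j : ℕ, i < j → 2 ^ i % n = 2 ^ j % n → False := by
    intro i j hij he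
    have hmul : (2 ^ i) • Affine.Point.some x y h = (2 ^ j) • Affine.Point.some x y h := by
      rw [hmod (2 ^ i), hmod (2 ^ j), he]
    obtain ⟨x1, y1, h1, e1, v1, -⟩ := dbl_powC hW h hb i
    obtain ⟨x2, y2, h2', e2, -, v2⟩ := dbl_powC hW h1 (hb.mono v1) (j - i)
    have e3 : (2 ^ j) • Affine.Point.some x y h = Affine.Point.some x2 y2 h2' := by
      rw [← e2, ← e1, ← mul_nsmul, ← pow_add, Nat.add_sub_cancel' hij.le]
    rw [e1, e3] at hmul
    have hx12 : x1 = x2 := by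
      injection hmul
    have := v2 (by omega)
    rw [hx12] at this
    exact lt_irrefl _ this
  rcases Nat.lt_or_gt_of_ne hij with h1 | h1
  · exact key i j h1 he
  · exact key j i h1 he.symm

end

theorem pf_DUP : T_DUP.{u} := by
  intro M k _ _ _ _ φ W Γ₀ _ v hW
  classical
  let L : List M := [1, W.b₂, W.b₄, W.b₆, W.b₈, W.a₃ / W.a₁]
  have hmax : ∀ L : List M, L ≠ [] → ∃ B ∈ L, ∀ c ∈ L, v (φ c) ≤ v (φ B) := by
    intro L hL
    obtain ⟨B, hB, h⟩ := L.toFinset.exists_max_image (fun c => v (φ c))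
      (by simpa using hL)
    exact ⟨B, by simpa using hB, fun c hc => h c (by simpa using hc)⟩
  obtain ⟨B, -, hB⟩ := hmax L (by simp [L])
  refine ⟨B, fun x y h hx n hn => ?_⟩
  have hlt : ∀ c ∈ L, v (φ c) < v x := fun c hc => (hB c hc).trans_lt hx
  refine not_torsionC (v := v) (W := (W.map φ).toAffine) ?_ h ?_ n hn
  · rcases hW with hW | hW
    · exact Or.inl ((map_ne_zero φ).2 hW)
    · exact Or.inr ((map_ne_zero φ).2 hW)
  · constructor
    · have := hlt 1 (by simp [L])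
      rwa [map_one, map_one] at this
    · have := hlt W.b₂ (by simp [L])
      rwa [← WeierstrassCurve.map_b₂] at this
    · have := hlt W.b₄ (by simp [L])
      rwa [← WeierstrassCurve.map_b₄] at this
    · have := hlt W.b₆ (by simp [L])
      rwa [← WeierstrassCurve.map_b₆] at this
    · have := hlt W.b₈ (by simp [L])
      rwa [← WeierstrassCurve.map_b₈] at this
    · intro ha
      have h1 : φ W.a₁ ≠ 0 := ha
      have h2 := hlt (W.a₃ / W.a₁) (by simp [L])
      rw [map_div₀, map_div₀] at h2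
      have h3 : 0 < v (φ W.a₁) := zero_lt_iff.2 ((Valuation.ne_zero_iff v).2 h1)
      have h4 := mul_lt_mul_of_pos_left h2 h3
      rw [mul_div_cancel₀ _ h3.ne'] at h4
      exact h4

end Pool.Agent.H85.EC
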