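import Pool.Agent.H13.EC.Defs

/-!
# MP_6b5a9a_nt: every ideal of finite codimension contains an element of small degree
-/

open Polynomial Pool.Agent.H13.EC WeierstrassCurve Module
open scoped DirectSum Polynomial.Bivariate

universe u

namespace Pool.Agent.H85.EC

section

variable {k R : Type u} [Field k] [CommRing R] [IsDomain R] [Algebra k R] [Algebra k[X] R]
  [IsScalarTower k k[X] R] (b : Basis (Fin 2) k[X] R)

include b in
/-- The quotient by a nonzero ideal is finite dimensional. -/
theorem finite_quot (I : Ideal R) (hI : I ≠ ⊥) : Module.Finite k (R ⧸ I) := by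
  have : ∀ i, Module.Finite k (k[X] ⧸ Ideal.span ({I.smithCoeffs b hI i} : Set k[X])) :=
    fun i => PowerBasis.finite <| AdjoinRoot.powerBasis <| I.smithCoeffs_ne_zero b hI i
  exact Module.Finite.equiv (Ideal.quotientEquivDirectSum k b hI).symm

include b in
theorem core (y : R) (h0 : ∀ p q : k[X], p • (1 : R) + q • y = 0 → p = 0 ∧ q = 0)
    (hd : ∀ p q : k[X], (Algebra.norm k[X] (p • (1 : R) + q • y)).degree =
      max (2 • p.degree) (2 • q.degree + 3)) (I : Ideal R) (hI : I ≠ ⊥) :
    Module.Finite k (R ⧸ I) ∧ ∃ f ∈ I, f ≠ 0 ∧ Module.Finite k (R ⧸ Ideal.span {f}) ∧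
    Module.finrank k (R ⧸ Ideal.span {f}) ≤ Module.finrank k (R ⧸ I) + 1 := by
  have hfin := finite_quot b I hI
  refine ⟨hfin, ?_⟩
  set n := Module.finrank k (R ⧸ I) with hn
  -- the linear map
  let a := (n + 1) / 2 + 1
  let c := n / 2
  let g : (degreeLT k a) × (degreeLT k c) →ₗ[k] (R ⧸ I) :=
    (Ideal.Quotient.mkₐ k I).toLinearMap ∘ₗ
      LinearMap.coprod
        (((LinearMap.toSpanSingleton k[X] R 1).restrictScalars k) ∘ₗ
          (degreeLT k a).subtype)
        (((LinearMap.toSpanSingleton k[X] R y).restrictScalars k) ∘ₗ (degreeLT k c).subtype)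
  have hdeg : ∀ m, Module.Finite k (degreeLT k m) ∧ Module.finrank k (degreeLT k m) = m := by
    intro m
    have : Module.Finite k (degreeLT k m) := Module.Finite.equiv (degreeLTEquiv k m).symm
    exact ⟨this, by rw [(degreeLTEquiv k m).finrank_eq, Module.finrank_fin_fun]⟩
  have := (hdeg a).1
  have := (hdeg c).1
  have hlt : Module.finrank k (R ⧸ I) <
      Module.finrank k ((degreeLT k a) × (degreeLT k c)) := by
    rw [Module.finrank_prod, (hdeg a).2, (hdeg c).2, ← hn]
    omega
  have hker := LinearMap.ker_ne_bot_of_finrank_lt (f := g) hlt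
  obtain ⟨pq, hpq, hne⟩ := Submodule.exists_mem_ne_zero_of_ne_bot hker
  obtain ⟨⟨p, hp⟩, ⟨q, hq⟩⟩ := pq
  have hg : g (⟨p, hp⟩, ⟨q, hq⟩) = Ideal.Quotient.mk I (p • (1 : R) + q • y) := rfl
  have hfI : p • (1 : R) + q • y ∈ I := by
    rw [LinearMap.mem_ker, hg] at hpq
    exact Ideal.Quotient.eq_zero_iff_mem.1 hpq
  have hf0 : p • (1 : R) + q • y ≠ 0 := by
    intro h
    obtain ⟨h1, h2⟩ := h0 p q h
    subst h1 h2
    exact hne rfl
  refine ⟨_, hfI, hf0, finite_quot b _ (by simpa using hf0), ?_⟩
  rw [finrank_quotient_span_eq_natDegree_norm b hf0, natDegree_le_iff_degree_le, hd,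
    nsmul_eq_mul, nsmul_eq_mul]
  refine max_le ?_ ?_
  · by_cases hp0 : p = 0
    · rw [hp0, degree_zero]
      simp
    · rw [mem_degreeLT, degree_eq_natDegree hp0] at hp
      rw [degree_eq_natDegree hp0]
      have hp' : p.natDegree < a := by exact_mod_cast hp
      have : 2 * p.natDegree ≤ n + 1 := by omega
      exact_mod_cast this
  · by_cases hq0 : q = 0
    · rw [hq0, degree_zero]
      simp
    · rw [mem_degreeLT, degree_eq_natDegree hq0] at hq
      rw [degree_eq_natDegree hq0]
      have hq' : q.natDegree < c := by exact_mod_cast hq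
      have : 2 * q.natDegree + 3 ≤ n + 1 := by omega
      exact_mod_cast this

end

theorem pf_MIN : T_MIN.{u} := by
  intro k _ W I hI
  exact core (Affine.CoordinateRing.basis W) (Affine.CoordinateRing.mk W Y)
    (fun p q h => Affine.CoordinateRing.smul_basis_eq_zero h)
    (fun p q => Affine.CoordinateRing.degree_norm_smul_basis p q) I hI

end Pool.Agent.H85.EC
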